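import Pool.Agent.W619.Y.Stm5

/-! The numerical dimension of a product with several curves, from the one-curve case. -/

set_option autoImplicit false
set_option linter.overlappingInstances false
set_option linter.unusedSectionVars false

universe u v

open FF IntermediateField Pool.Agent.W619.PQ Pool.Agent.W619.PL Pool.Agent.W619.TW
  Pool.Agent.W603.LV Pool.Agent.W619.Y

namespace Pool.Agent.W824.PG

section

variable {k : Type v} [Field k]

theorem fin_adj {K : Type u} [Field K] [Algebra k K] {n : ℕ} (hess : Algebra.EssFiniteType k K)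
    (y : Fin n → K) (hy : IsTranscendenceBasis k y) :
    FiniteDimensional (IntermediateField.adjoin k (Set.range y)) K := by
  set K0 := IntermediateField.adjoin k (Set.range y) with hK0
  have t2 : IsScalarTower k K0 K := inferInstance
  have hess : Algebra.EssFiniteType K0 K := Algebra.EssFiniteType.of_comp k K0 K
  have halg1 : Algebra.IsAlgebraic K0 K := hy.isAlgebraic_field
  obtain ⟨s, hs⟩ := IntermediateField.fg_top K0 K
  have h1 : FiniteDimensional K0 (IntermediateField.adjoin K0 (s : Set K)) :=
    IntermediateField.finiteDimensional_adjoin fun x _ =>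
      (halg1.isAlgebraic x).isIntegral
  rw [hs] at h1
  exact h1.equiv IntermediateField.topEquiv.toLinearEquiv

theorem bdUp_false {K L : Type u} [Field K] [Algebra k K] [Field L] [Algebra k L] [Algebra K L] :
    BdUp (k := k) (K := K) (L := L) (fun _ : Place k K => False) = fun _ => False := by
  funext w
  simp [BdUp]

theorem transport1 [CharZero k] (h1 : S_TRANS.{u, v}) {K K' : Type u} [Field K] [Algebra k K]
    [Field K'] [Algebra k K'] (e : K ≃ₐ[k] K') {n : ℕ} (hess : Algebra.EssFiniteType k K)
    (hn : Algebra.trdeg k K = n) :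
    (IsPsef k K n (fun _ => False) → IsPsef k K' n (fun _ => False)) ∧
    (NumNeg k K' n (fun _ => False) → NumNeg k K n (fun _ => False)) ∧
    ∀ h, NumLe k K' n (fun _ => False) h → NumLe k K n (fun _ => False) h := by
  let iA : Algebra K K' := e.toRingEquiv.toRingHom.toAlgebra
  have t1 : IsScalarTower k K K' := IsScalarTower.of_algebraMap_eq fun c => (e.commutes c).symm
  have f1 : FiniteDimensional K K' :=
    Module.Finite.of_surjective (Algebra.linearMap K K') e.surjective
  have h := h1 k K K' n hn (fun y hy => fin_adj hess y hy) (fun _ => False)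
  rw [bdUp_false] at h
  exact h

/-- Transport of the three notions along an isomorphism. -/
theorem transport [CharZero k] (h1 : S_TRANS.{u, v}) {K K' : Type u} [Field K] [Algebra k K]
    [Field K'] [Algebra k K'] (e : K ≃ₐ[k] K') {n : ℕ} (hess : Algebra.EssFiniteType k K)
    (hn : Algebra.trdeg k K = n) :
    (IsPsef k K n (fun _ => False) ↔ IsPsef k K' n (fun _ => False)) ∧
    (NumNeg k K n (fun _ => False) ↔ NumNeg k K' n (fun _ => False)) ∧
    ∀ h, NumLe k K n (fun _ => False) h ↔ NumLe k K' n (fun _ => False) h := by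
  have hess' : Algebra.EssFiniteType k K' := (Algebra.EssFiniteType.iff_of_algEquiv e).1 hess
  have hn' : Algebra.trdeg k K' = n := by rw [← hn]; exact e.symm.trdeg_eq
  obtain ⟨a1, a2, a3⟩ := transport1 h1 e hess hn
  obtain ⟨b1, b2, b3⟩ := transport1 h1 e.symm hess' hn'
  exact ⟨⟨a1, b1⟩, ⟨b2, a2⟩, fun h => ⟨b3 h, a3 h⟩⟩

/-- Pull-back of a place along an isomorphism. -/
def plc {K K' : Type u} [Field K] [Algebra k K] [Field K'] [Algebra k K'] (e : K ≃ₐ[k] K')
    (P : Place k K') : Place k K where
  ord f := P.ord (e f)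
  ord_zero := by rw [map_zero, P.ord_zero]
  ord_mul := by
    intro f g hf hg
    rw [map_mul, P.ord_mul (by simpa using hf) (by simpa using hg)]
  ord_add := by
    intro f g hf hg hfg
    rw [map_add]
    exact P.ord_add (by simpa using hf) (by simpa using hg)
      (by rw [← map_add]; exact (map_ne_zero e).2 hfg)
  ord_const := by
    intro c hc
    rw [e.commutes]
    exact P.ord_const hc
  surj := by
    obtain ⟨t, ht0, ht⟩ := P.surj
    exact ⟨e.symm t, by simpa using ht0, by rw [e.apply_symm_apply]; exact ht⟩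

/-- Places correspond to places. -/
def plcEquiv {K K' : Type u} [Field K] [Algebra k K] [Field K'] [Algebra k K'] (e : K ≃ₐ[k] K') :
    Place k K' ≃ Place k K where
  toFun := plc e
  invFun := plc e.symm
  left_inv := by
    intro P
    ext f
    change P.ord (e (e.symm f)) = P.ord f
    rw [e.apply_symm_apply]
  right_inv := by
    intro P
    ext f
    change P.ord (e.symm (e f)) = P.ord f
    rw [e.symm_apply_apply]

/-- conjugation of a derivation by an isomorphism -/
noncomputable def cDer {K K' : Type u} [Field K] [Algebra k K] [Field K'] [Algebra k K']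
    (g : K ≃ₐ[k] K') (D : Derivation k K K) : Derivation k K' K' :=
  Derivation.mk' ((g.toLinearMap.comp (D : K →ₗ[k] K)).comp g.symm.toLinearMap) (by
    intro a b
    simp only [LinearMap.comp_apply, AlgEquiv.toLinearMap_apply, map_mul, Derivation.coeFn_coe,
      Derivation.leibniz, smul_eq_mul, map_add, AlgEquiv.apply_symm_apply])

theorem cDer_apply {K K' : Type u} [Field K] [Algebra k K] [Field K'] [Algebra k K']
    (g : K ≃ₐ[k] K') (D : Derivation k K K) (z : K') :
    cDer g D z = g (D (g.symm z)) := rfl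

theorem isFF_equiv {K K' : Type u} [Field K] [Algebra k K] [Field K'] [Algebra k K']
    (e : K ≃ₐ[k] K') (h : IsFF k K) : IsFF k K' :=
  ⟨(Algebra.EssFiniteType.iff_of_algEquiv e).1 h.ess, by rw [← h.trdeg]; exact e.symm.trdeg_eq⟩

theorem canDeg_equiv [CharZero k] [IsAlgClosed k] {K K' : Type u} [Field K] [Algebra k K]
    [Field K'] [Algebra k K'] (e : K ≃ₐ[k] K') [hK : IsFF k K] [hK' : IsFF k K'] :
    canDeg k K = canDeg k K' := by
  have hD := der_ne (k := k) (K := K)
  have hD' : cDer e (der k K) ≠ 0 := by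
    intro h0
    apply hD
    ext f
    have h2 := congrArg (fun D : Derivation k K' K' => D (e f)) h0
    simp only [cDer_apply, e.symm_apply_apply, Derivation.coe_zero, Pi.zero_apply] at h2
    rw [Derivation.coe_zero, Pi.zero_apply]
    exact (map_eq_zero e).1 h2
  rw [canDeg_eq hD, canDeg_eq hD', neg_inj]
  symm
  refine finsum_eq_of_bijective (plcEquiv e) (plcEquiv e).bijective fun P => ?_
  have h1 : (plc e P).ord (unif (plc e P)) = 1 := ord_unif _
  have h2 : P.ord (e (unif (plc e P))) = 1 := h1
  rw [← vo_eq P h2 hD', cDer_apply, e.symm_apply_apply]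
  rfl

theorem alg_of_basis {L : Type u} [Field L] [Algebra k L] (M : IntermediateField k L)
    {ι : Type*} {y : ι → M} (hy : IsTranscendenceBasis k y) (S : IntermediateField k L)
    (hS : ∀ i, (y i : L) ∈ S) (z : M) : IsAlgebraic S (z : L) := by
  have h : Algebra.IsAlgebraic (IntermediateField.adjoin k (Set.range y)) M := hy.isAlgebraic_field
  have hle : IntermediateField.adjoin k (Set.range y) ≤ S.comap M.val := by
    rw [adjoin_le_iff]
    rintro _ ⟨i, rfl⟩
    exact hS i
  let f : IntermediateField.adjoin k (Set.range y) →+* S :=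
    ((M.val : M →+* L).comp (algebraMap (IntermediateField.adjoin k (Set.range y)) M)).codRestrict S
      fun y => hle y.2
  exact (h.isAlgebraic z).ringHom_of_comp_eq f (M.val : M →+* L) f.injective (by ext y; rfl)

theorem trdeg_le_of_sup {L : Type u} [Field L] [Algebra k L] {d n : ℕ} (M : IntermediateField k L)
    (F : Fin n → IntermediateField k L) [∀ i, IsFF k (F i)] (hM : Algebra.trdeg k M = d)
    (hsup : M ⊔ (⨆ i, F i) = ⊤) : Algebra.trdeg k L ≤ (d + n : ℕ) := by
  obtain ⟨s, hs⟩ := exists_isTranscendenceBasis k M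
  choose x hx using fun i => IsFF.exists_transcendental (k := k) (K := F i)
  have hcard : Cardinal.mk s = d := by rw [← hM]; exact hs.cardinalMk_eq_trdeg
  let T : Set L := Set.range (fun j : s => ((j : M) : L)) ∪ Set.range fun i => (x i : L)
  let S : IntermediateField k L := adjoin k T
  have hMS : M ≤ (algebraicClosure S L).restrictScalars k := by
    intro z hz
    rw [mem_restrictScalars, mem_algebraicClosure_iff]
    exact alg_of_basis M hs S (fun i => subset_adjoin k _ (Or.inl ⟨i, rfl⟩)) ⟨z, hz⟩
  have hFS : ⨆ i, F i ≤ (algebraicClosure S L).restrictScalars k := by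
    refine iSup_le fun i y hy => ?_
    rw [mem_restrictScalars, mem_algebraicClosure_iff]
    exact alg_of_mem (F i) (hx i) S (subset_adjoin k _ (Or.inr ⟨i, rfl⟩)) ⟨y, hy⟩
  have htop : (⊤ : IntermediateField k L) ≤ (algebraicClosure S L).restrictScalars k := by
    rw [← hsup]
    exact sup_le hMS hFS
  have hz : ∀ z : L, IsAlgebraic S z := by
    intro z
    have := htop (show z ∈ (⊤ : IntermediateField k L) from trivial)
    rwa [mem_restrictScalars, mem_algebraicClosure_iff] at this
  have h4 := alg_adjoin hz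
  have h5 := Algebra.IsAlgebraic.trdeg_le_cardinalMk k T
  refine h5.trans ((Cardinal.mk_union_le _ _).trans ?_)
  rw [Nat.cast_add]
  refine add_le_add ?_ ?_
  · refine Cardinal.mk_range_le.trans ?_
    rw [hcard]
  · have h7 : Cardinal.lift.{0} (Cardinal.mk (Set.range fun i => (x i : L))) ≤
        Cardinal.lift.{u} (Cardinal.mk (Fin n)) := Cardinal.mk_range_le_lift
    simpa using h7

theorem ncard_succ {n : ℕ} (f : Fin (n + 1) → ℤ) :
    {i | f i ≠ 0}.ncard = {i : Fin n | f i.castSucc ≠ 0}.ncard +
      if f (Fin.last n) ≠ 0 then 1 else 0 := by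
  classical
  rw [Set.ncard_eq_toFinset_card', Set.ncard_eq_toFinset_card', Set.toFinset_ofPred,
    Set.toFinset_ofPred, Finset.card_filter, Finset.card_filter, Fin.sum_univ_castSucc]

theorem many (h1 : S_TRANS.{u, v}) (h2 : S_ONE.{u, v}) (h3 : S_PSEFY.{u, v}) [CharZero k]
    [IsAlgClosed k] (d n : ℕ) : ∀ (L : Type u) [Field L] [Algebra k L] (M : IntermediateField k L)
  (F : Fin n → IntermediateField k L) [∀ i, IsFF k (F i)] [Algebra.EssFiniteType k M],
    Algebra.trdeg k M = d → Algebra.trdeg k L = (d + n : ℕ) → M ⊔ (⨆ i, F i) = ⊤ →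
    (IsPsef k L (d + n) (fun _ => False) → IsPsef k M d (fun _ => False)) ∧
    (NumNeg k M d (fun _ => False) → NumNeg k L (d + n) (fun _ => False)) ∧
    ∀ a : ℕ, (∀ i, 0 ≤ canDeg k (F i)) → NumLe k M d (fun _ => False) a →
      NumLe k L (d + n) (fun _ => False) (a + {i | canDeg k (F i) ≠ 0}.ncard) := by
  induction n with
  | zero =>
    intro L _ _ M F hF hess hM hL hsup
    have hM' : M = ⊤ := by rw [← hsup]; simp [iSup_of_empty]
    let e : M ≃ₐ[k] L := (equivOfEq hM').trans topEquiv
    obtain ⟨a1, a2, a3⟩ := transport h1 e hess hM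
    refine ⟨fun h => a1.2 h, fun h => a2.1 h, fun a ha h => ?_⟩
    have h0 : {i | canDeg k (F i) ≠ 0}.ncard = 0 := by
      have : {i | canDeg k (F i) ≠ 0} = ∅ := Set.eq_empty_of_isEmpty _
      rw [this, Set.ncard_empty]
    rw [h0]
    exact (a3 a).1 h
  | succ n ih =>
    intro L _ _ M F hF hess hM hL hsup
    let N : IntermediateField k L := M ⊔ ⨆ i : Fin n, F i.castSucc
    have hMN : M ≤ N := le_sup_left
    have hFN : ∀ i : Fin n, F i.castSucc ≤ N := fun i =>
      (le_iSup (fun i : Fin n => F i.castSucc) i).trans le_sup_right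
    let M0 : IntermediateField k N := restrict hMN
    let F0 : Fin n → IntermediateField k N := fun i => restrict (hFN i)
    have hF0 : ∀ i, IsFF k (F0 i) := fun i => isFF_equiv (restrictAlgEquiv (hFN i)) (hF _)
    have hess0 : Algebra.EssFiniteType k M0 :=
      (Algebra.EssFiniteType.iff_of_algEquiv (restrictAlgEquiv hMN)).1 hess
    have hM0 : Algebra.trdeg k M0 = d := by rw [← hM]; exact (restrictAlgEquiv hMN).symm.trdeg_eq
    have hsup0 : M0 ⊔ ⨆ i, F0 i = ⊤ := by
      apply lift_injective N
      rw [lift_sup, lift_top, lift_restrict]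
      have h4 : lift (⨆ i, F0 i) = ⨆ i : Fin n, F i.castSucc := by
        rw [lift, IntermediateField.map_iSup]
        exact iSup_congr fun i => lift_restrict (hFN i)
      rw [h4]
    have hN1 : Algebra.trdeg k N ≤ (d + n : ℕ) := trdeg_le_of_sup M0 F0 hM0 hsup0
    have hsupN : N ⊔ F (Fin.last n) = ⊤ := by
      rw [eq_top_iff, ← hsup]
      refine sup_le (hMN.trans le_sup_left) (iSup_le fun i => ?_)
      refine Fin.lastCases ?_ (fun j => ?_) i
      · exact le_sup_right
      · exact (hFN j).trans le_sup_left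
    obtain ⟨c, hc⟩ : ∃ c : ℕ, Algebra.trdeg k N = c :=
      Cardinal.lt_aleph0.1 (hN1.trans_lt (Cardinal.natCast_lt_aleph0))
    have hL1 : Algebra.trdeg k L ≤ (c + 1 : ℕ) := by
      have hFF : ∀ i : Fin 1, IsFF k ((fun _ : Fin 1 => F (Fin.last n)) i) := fun _ => hF _
      exact trdeg_le_of_sup N (fun _ : Fin 1 => F (Fin.last n)) hc (by rw [iSup_const, hsupN])
    have hcN : c = d + n := by
      rw [hL] at hL1
      rw [hc] at hN1
      have h5 : d + (n + 1) ≤ c + 1 := by exact_mod_cast hL1
      have h6 : c ≤ d + n := by exact_mod_cast hN1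
      omega
    subst hcN
    have hessN : Algebra.EssFiniteType k N := by
      have h7 : N.FG := fg_sup (essFiniteType_iff.1 hess)
        (fg_iSup fun j : Fin n => essFiniteType_iff.1 ((hF j.castSucc).ess))
      exact essFiniteType_iff.2 h7
    obtain ⟨p1, p2⟩ := h3 k L N (F (Fin.last n)) (d + n) hc hL hsupN
    obtain ⟨q1, q2, q3⟩ := ih N M0 F0 hM0 hc hsup0
    obtain ⟨t1, t2, t3⟩ := transport h1 (restrictAlgEquiv hMN) hess hM
    refine ⟨fun h => t1.2 (q1 (p1 h)), fun h => p2 (q2 (t2.1 h)), fun a ha h => ?_⟩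
    have hcan : ∀ i : Fin n, canDeg k (F0 i) = canDeg k (F i.castSucc) := fun i =>
      (canDeg_equiv (restrictAlgEquiv (hFN i))).symm
    have q := q3 a (fun i => by rw [hcan]; exact ha _) ((t3 a).1 h)
    obtain ⟨o1, o2⟩ := h2 k L N (F (Fin.last n)) (d + n) _ hc hL hsupN
      (fun y hy => fin_adj hessN y hy) (ha _) q
    have hcard := ncard_succ (fun i => canDeg k (F i))
    have hset : {i : Fin n | canDeg k (F0 i) ≠ 0} = {i : Fin n | canDeg k (F i.castSucc) ≠ 0} := by
      ext i
      simp only [Set.mem_ofPred_eq, hcan]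
    rw [hset] at o1 o2
    rw [hcard]
    by_cases h0 : canDeg k (F (Fin.last n)) = 0
    · rw [if_neg (by simpa using h0), add_zero]
      exact o1 h0
    · rw [if_pos h0, ← add_assoc]
      exact o2

end

/-- The numerical dimension of `Y × C 1 × ... × C n`. -/
theorem main (h1 : S_TRANS.{u, v}) (h2 : S_ONE.{u, v}) (h3 : S_PSEFY.{u, v}) : S_MANY.{u, v} := by
  intro k L _ _ _ _ _ d n M F _ _
  exact many h1 h2 h3 d n L M F

end Pool.Agent.W824.PG
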